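import Pool.Agent.Run7.h865.LW.Iface

/-! Piece COEF of project LW (helper865): Cauchy's inequality for the coefficients of a polynomial. -/

set_option autoImplicit false

open Polynomial Finset

namespace Pool.Agent.Run7.h888.LW

/-- **COEF**. -/
theorem t_COEF : Pool.Agent.Run7.h865.LW.S_COEF := by
  intro P C hC k
  obtain ⟨n, hn⟩ : ∃ n, n = P.natDegree + k + 1 := ⟨_, rfl⟩
  have hn0 : n ≠ 0 := by omega
  have hnC : (n : ℂ) ≠ 0 := by exact_mod_cast hn0
  have hnR : (0 : ℝ) < n := by exact_mod_cast Nat.pos_of_ne_zero hn0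
  have hζ := Complex.isPrimitiveRoot_exp n hn0
  obtain ⟨ζ, hζ1⟩ : ∃ ζ : ℂ, ζ = Complex.exp (2 * Real.pi * Complex.I / n) := ⟨_, rfl⟩
  rw [← hζ1] at hζ
  have hnorm : ‖ζ‖ = 1 := Complex.norm_eq_one_of_pow_eq_one hζ.pow_eq_one hn0
  have hin : ∀ i ∈ range (P.natDegree + 1), ∑ j ∈ range n, (ζ ^ (i + (n - k))) ^ j = if i = k then (n : ℂ) else 0 := by
    intro i hi
    rw [mem_range] at hi
    by_cases hik : i = k
    · rw [if_pos hik, hik]
      have : k + (n - k) = n := by omega
      rw [this, hζ.pow_eq_one]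
      simp
    · rw [if_neg hik]
      have h1 : ζ ^ (i + (n - k)) ≠ 1 := by
        intro h
        rw [hζ.pow_eq_one_iff_dvd] at h
        obtain ⟨m, hm⟩ := h
        have h2 : m = 1 := by
          have h3 : 0 < n * m := by omega
          have h4 : n * m < n * 2 := by omega
          have h5 : m < 2 := lt_of_mul_lt_mul_left h4 (Nat.zero_le _)
          have h6 : 0 < m := Nat.pos_of_ne_zero (by rintro rfl; simp at h3)
          omega
        rw [h2] at hm
        omega
      have h2 := geom_sum_mul (ζ ^ (i + (n - k))) n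
      have h3 : (ζ ^ (i + (n - k))) ^ n = 1 := by
        rw [← pow_mul, mul_comm, pow_mul, hζ.pow_eq_one, one_pow]
      rw [h3, sub_self] at h2
      rcases mul_eq_zero.mp h2 with h | h
      · exact h
      · exact absurd (sub_eq_zero.mp h) h1
  have key : (n : ℂ) * (P.coeff k : ℂ) = ∑ j ∈ range n, aeval (ζ ^ j) P * (ζ ^ j) ^ (n - k) := by
    have h1 : ∀ j ∈ range n, aeval (ζ ^ j) P * (ζ ^ j) ^ (n - k) =
        ∑ i ∈ range (P.natDegree + 1), (P.coeff i : ℂ) * (ζ ^ (i + (n - k))) ^ j := by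
      intro j _
      rw [aeval_eq_sum_range, sum_mul]
      apply sum_congr rfl
      intro i _
      rw [zsmul_eq_mul, mul_assoc, ← pow_add, ← pow_mul, ← pow_mul, mul_comm j]
    rw [sum_congr rfl h1, sum_comm]
    have h2 : ∀ i ∈ range (P.natDegree + 1), ∑ j ∈ range n, (P.coeff i : ℂ) * (ζ ^ (i + (n - k))) ^ j =
        if i = k then (n : ℂ) * (P.coeff k : ℂ) else 0 := by
      intro i hi
      rw [← mul_sum, hin i hi]
      split_ifs with h
      · rw [h]; ring
      · ring
    rw [sum_congr rfl h2, sum_ite_eq']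
    by_cases hk : k ∈ range (P.natDegree + 1)
    · rw [if_pos hk]
    · rw [if_neg hk, coeff_eq_zero_of_natDegree_lt (by rw [mem_range] at hk; omega)]
      simp
  have h1 : ‖(n : ℂ) * (P.coeff k : ℂ)‖ ≤ n * C := by
    rw [key]
    refine (norm_sum_le _ _).trans ?_
    calc ∑ j ∈ range n, ‖aeval (ζ ^ j) P * (ζ ^ j) ^ (n - k)‖ ≤ ∑ j ∈ range n, C := by
          apply sum_le_sum
          intro j _
          have hz : ‖ζ ^ j‖ = 1 := by rw [norm_pow, hnorm, one_pow]
          rw [norm_mul, norm_pow, hz, one_pow, mul_one]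
          exact hC _ hz
      _ = n * C := by rw [sum_const, card_range, nsmul_eq_mul]
  rw [norm_mul, Complex.norm_natCast, Complex.norm_intCast] at h1
  exact le_of_mul_le_mul_left h1 hnR

end Pool.Agent.Run7.h888.LW
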