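import Pool.Agent.Run7.h865.LW.Iface

/-! Piece FOU of project LW (helper865): the circle method. -/

set_option autoImplicit false

open Polynomial Finset

namespace Pool.Agent.Run7.h888.LW

lemma cos_le_exp (x : ℝ) (hx : |x| ≤ 1 / 2) : Real.cos (Real.pi * x) ≤ Real.exp (-2 * x ^ 2) := by
  have hpi := Real.pi_pos
  have h1 : |Real.pi * x| ≤ Real.pi := by
    rw [abs_mul, abs_of_pos hpi]
    nlinarith [abs_nonneg x]
  have h2 := Real.cos_le_one_sub_mul_cos_sq h1
  have h3 : 1 - 2 / Real.pi ^ 2 * (Real.pi * x) ^ 2 = -2 * x ^ 2 + 1 := by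
    field_simp
    ring
  rw [h3] at h2
  exact h2.trans (Real.add_one_le_exp _)

lemma cos_pi_nonneg (x : ℝ) (hx : |x| ≤ 1 / 2) : 0 ≤ Real.cos (Real.pi * x) := by
  have hpi := Real.pi_pos
  have h := abs_le.mp hx
  apply Real.cos_nonneg_of_mem_Icc
  constructor <;> nlinarith [h.1, h.2]

/-- `cos (π h) = (-1)^z cos (π (h - z))` -/
lemma cos_round (h : ℝ) : Real.cos (Real.pi * h) = (-1 : ℝ) ^ (round h) * Real.cos (Real.pi * (h - round h)) := by
  have e1 : Real.pi * h = Real.pi * (h - round h) + (round h : ℤ) * Real.pi := by ring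
  rw [e1, Real.cos_add_int_mul_pi]

lemma prod_zpow (N : ℕ) (z : ℕ → ℤ) : ∏ j ∈ range N, (-1 : ℝ) ^ (z j) = (-1 : ℝ) ^ (∑ j ∈ range N, z j) := by
  induction N with
  | zero => simp
  | succ N ih => rw [prod_range_succ, sum_range_succ, ih, zpow_add₀ (by norm_num)]

lemma geom_zero (q : ℕ) (hq : 0 < q) (c : ℤ) (hc : c ≠ 0) (hcq : |c| < (q : ℤ)) :
    ∑ a ∈ range q, (Complex.exp (2 * Real.pi * Complex.I * (c / q))) ^ a = 0 := by
  have hq0 : (q : ℂ) ≠ 0 := by exact_mod_cast hq.ne'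
  set ζ := Complex.exp (2 * Real.pi * Complex.I * (c / q)) with hζ
  have h1 : ζ ^ q = 1 := by
    rw [hζ, ← Complex.exp_nat_mul, Complex.exp_eq_one_iff]
    exact ⟨c, by field_simp⟩
  have h2 : ζ ≠ 1 := by
    intro h
    rw [hζ, Complex.exp_eq_one_iff] at h
    obtain ⟨n, hn⟩ := h
    have h3 : (2 * (Real.pi : ℂ) * Complex.I) ≠ 0 := Complex.two_pi_I_ne_zero
    have h4 : (c : ℂ) / q = n := by
      have : 2 * (Real.pi : ℂ) * Complex.I * (c / q) = 2 * (Real.pi : ℂ) * Complex.I * n := by rw [hn]; ring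
      exact mul_left_cancel₀ h3 this
    have h5 : (c : ℂ) = n * q := by rw [← h4]; field_simp
    have h6 : c = n * q := by exact_mod_cast h5
    rw [h6, abs_mul] at hcq
    have hqq : |(q : ℤ)| = q := abs_of_nonneg (by positivity)
    rw [hqq] at hcq
    have hn0 : n ≠ 0 := by
      rintro rfl
      exact hc (by rw [h6]; ring)
    have : 1 ≤ |n| := Int.one_le_abs hn0
    have hq1 : (0 : ℤ) < q := by exact_mod_cast hq
    nlinarith
  have h3 := geom_sum_mul ζ q
  rw [h1, sub_self] at h3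
  rcases mul_eq_zero.mp h3 with h | h
  · exact h
  · exact absurd (sub_eq_zero.mp h) h2

/-- the integer `∑ ε_j w_j` of the sign vector of `t` -/
def cc (N : ℕ) (w : ℕ → ℤ) (t : Finset ℕ) : ℤ := ∑ j ∈ range N, (if j ∈ t then 1 else -1) * w j

lemma cc_eq (N : ℕ) (w : ℕ → ℤ) (t : Finset ℕ) (ht : t ⊆ range N) :
    cc N w t = ∑ j ∈ t, w j - ∑ j ∈ range N \ t, w j := by
  unfold cc
  rw [← sum_sdiff ht, sub_eq_add_neg, add_comm, ← sum_neg_distrib]
  congr 1
  · apply sum_congr rfl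
    intro j hj
    rw [if_pos hj, one_mul]
  · apply sum_congr rfl
    intro j hj
    rw [mem_sdiff] at hj
    rw [if_neg hj.2]
    ring

lemma prod_cos (N q : ℕ) (hq : 0 < q) (w : ℕ → ℤ) (a : ℕ) :
    ((∏ j ∈ range N, 2 * Real.cos (Real.pi * (2 * (a : ℝ) * w j / q)) : ℝ) : ℂ) =
      ∑ t ∈ (range N).powerset, (Complex.exp (2 * Real.pi * Complex.I * (cc N w t / q))) ^ a := by
  have hq0 : (q : ℂ) ≠ 0 := by exact_mod_cast hq.ne'
  push_cast
  have h1 : ∀ j ∈ range N, 2 * Complex.cos (Real.pi * (2 * (a : ℂ) * w j / q)) =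
      Complex.exp (2 * Real.pi * Complex.I * (a * w j / q)) + Complex.exp (-(2 * Real.pi * Complex.I * (a * w j / q))) := by
    intro j _
    rw [Complex.cos]
    have e1 : (Real.pi : ℂ) * (2 * (a : ℂ) * w j / q) * Complex.I = 2 * Real.pi * Complex.I * (a * w j / q) := by ring
    have e2 : -((Real.pi : ℂ) * (2 * (a : ℂ) * w j / q)) * Complex.I = -(2 * Real.pi * Complex.I * (a * w j / q)) := by ring
    rw [e1, e2]
    ring
  rw [prod_congr rfl h1, Finset.prod_add]
  apply sum_congr rfl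
  intro t ht
  rw [mem_powerset] at ht
  rw [← Complex.exp_sum, ← Complex.exp_sum, ← Complex.exp_add, ← Complex.exp_nat_mul, cc_eq N w t ht]
  congr 1
  rw [sum_neg_distrib, ← mul_sum, ← mul_sum, ← mul_neg, ← mul_add, ← sum_div, ← sum_div, ← mul_sum, ← mul_sum]
  push_cast
  ring

lemma term_low (N q : ℕ) (hq : 0 < q) (w : ℕ → ℤ) (K : ℝ) (hK : (q : ℝ) ≤ Real.exp (2 * K)) (a : ℕ)
    (hmaj : ∑ j ∈ range N, (2 * (a : ℝ) * w j / q - round (2 * (a : ℝ) * w j / q)) ^ 2 ≤ K →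
      Even (∑ j ∈ range N, round (2 * (a : ℝ) * w j / q))) :
    -((2 : ℝ) ^ N / q) ≤ ∏ j ∈ range N, 2 * Real.cos (Real.pi * (2 * (a : ℝ) * w j / q)) := by
  have hq0 : (0 : ℝ) < q := by exact_mod_cast hq
  obtain ⟨h, hh⟩ : ∃ h : ℕ → ℝ, h = fun j => 2 * (a : ℝ) * w j / q := ⟨_, rfl⟩
  have hh' : ∀ j, 2 * (a : ℝ) * w j / q = h j := fun j => by rw [hh]
  simp only [hh'] at hmaj ⊢
  have he : ∀ j, |h j - round (h j)| ≤ 1 / 2 := fun j => abs_sub_round (h j)
  have h1 : ∏ j ∈ range N, 2 * Real.cos (Real.pi * h j) =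
      (-1 : ℝ) ^ (∑ j ∈ range N, round (h j)) * ∏ j ∈ range N, 2 * Real.cos (Real.pi * (h j - round (h j))) := by
    rw [← prod_zpow, ← prod_mul_distrib]
    apply prod_congr rfl
    intro j _
    rw [cos_round (h j)]
    ring
  have hpos : 0 ≤ ∏ j ∈ range N, 2 * Real.cos (Real.pi * (h j - round (h j))) :=
    prod_nonneg fun j _ => mul_nonneg (by norm_num) (cos_pi_nonneg _ (he j))
  rw [h1]
  by_cases hc : ∑ j ∈ range N, (h j - round (h j)) ^ 2 ≤ K
  · rw [Even.neg_one_zpow (hmaj hc), one_mul]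
    refine le_trans ?_ hpos
    have : 0 ≤ (2 : ℝ) ^ N / q := by positivity
    linarith
  · push Not at hc
    have h2 : ∏ j ∈ range N, 2 * Real.cos (Real.pi * (h j - round (h j))) ≤ 2 ^ N / q := by
      calc ∏ j ∈ range N, 2 * Real.cos (Real.pi * (h j - round (h j)))
          ≤ ∏ j ∈ range N, 2 * Real.exp (-2 * (h j - round (h j)) ^ 2) := by
            apply prod_le_prod
            · intro j _
              exact mul_nonneg (by norm_num) (cos_pi_nonneg _ (he j))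
            · intro j _
              have := cos_le_exp _ (he j)
              linarith
        _ = 2 ^ N * Real.exp (-2 * ∑ j ∈ range N, (h j - round (h j)) ^ 2) := by
            rw [prod_mul_distrib, prod_const, card_range, ← Real.exp_sum, ← mul_sum]
        _ ≤ 2 ^ N * Real.exp (-(2 * K)) := by
            apply mul_le_mul_of_nonneg_left _ (by positivity)
            apply Real.exp_le_exp.mpr
            linarith
        _ ≤ 2 ^ N / q := by
            rw [Real.exp_neg, div_eq_mul_inv]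
            apply mul_le_mul_of_nonneg_left _ (by positivity)
            exact inv_anti₀ hq0 hK
    have h3 : |(-1 : ℝ) ^ (∑ j ∈ range N, round (h j))| = 1 := by
      rw [abs_zpow, abs_neg, abs_one, one_zpow]
    have h4 := abs_le.mp (le_of_eq (by
      rw [abs_mul, h3, one_mul, abs_of_nonneg hpos] :
      |(-1 : ℝ) ^ (∑ j ∈ range N, round (h j)) * ∏ j ∈ range N, 2 * Real.cos (Real.pi * (h j - round (h j)))| =
        ∏ j ∈ range N, 2 * Real.cos (Real.pi * (h j - round (h j)))))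
    linarith [h4.1]

/-- **FOU**. -/
theorem t_FOU : Pool.Agent.Run7.h865.LW.S_FOU := by
  intro N q w K hq hw hK hmaj
  by_contra hne
  push Not at hne
  have hq0 : (0 : ℝ) < q := by exact_mod_cast hq
  have hc0 : ∀ t, cc N w t ≠ 0 := by
    intro t
    apply hne
    intro j
    by_cases hj : j ∈ t <;> simp [hj]
  have hcq : ∀ t, |cc N w t| < (q : ℤ) := by
    intro t
    refine lt_of_le_of_lt (abs_sum_le_sum_abs _ _) (lt_of_le_of_lt (sum_le_sum ?_) hw)
    intro j _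
    rw [abs_mul]
    by_cases hj : j ∈ t <;> simp [hj]
  have hsum : ∑ a ∈ range q, ∏ j ∈ range N, 2 * Real.cos (Real.pi * (2 * (a : ℝ) * w j / q)) = 0 := by
    have h1 : ((∑ a ∈ range q, ∏ j ∈ range N, 2 * Real.cos (Real.pi * (2 * (a : ℝ) * w j / q)) : ℝ) : ℂ) = 0 := by
      rw [Complex.ofReal_sum, sum_congr rfl (fun a _ => prod_cos N q hq w a), sum_comm]
      apply sum_eq_zero
      intro t _
      exact geom_zero q hq _ (hc0 t) (hcq t)
    exact_mod_cast h1
  obtain ⟨p, rfl⟩ : ∃ p, q = p + 1 := ⟨q - 1, by omega⟩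
  rw [sum_range_succ'] at hsum
  have h0 : ∏ j ∈ range N, 2 * Real.cos (Real.pi * (2 * ((0 : ℕ) : ℝ) * w j / ((p + 1 : ℕ) : ℝ))) = 2 ^ N := by
    simp
  rw [h0] at hsum
  have hlow : ∑ a ∈ range p, (-((2 : ℝ) ^ N / ((p + 1 : ℕ) : ℝ))) ≤
      ∑ a ∈ range p, ∏ j ∈ range N, 2 * Real.cos (Real.pi * (2 * ((a + 1 : ℕ) : ℝ) * w j / ((p + 1 : ℕ) : ℝ))) := by
    apply sum_le_sum
    intro a _
    exact term_low N (p + 1) hq w K hK (a + 1) (hmaj (a + 1))
  rw [sum_const, card_range, nsmul_eq_mul] at hlow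
  have h5 : (p : ℝ) * (-((2 : ℝ) ^ N / ((p + 1 : ℕ) : ℝ))) = -(2 : ℝ) ^ N + 2 ^ N / ((p + 1 : ℕ) : ℝ) := by
    push_cast
    have : (p : ℝ) + 1 ≠ 0 := by positivity
    field_simp
    ring
  have h6 : 0 < (2 : ℝ) ^ N / ((p + 1 : ℕ) : ℝ) := by positivity
  linarith

end Pool.Agent.Run7.h888.LW
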