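import Pool.Agent.Run7.h865.LW.Iface

/-! Piece SUP of project LW (helper865): the sup norm of `∏ (1 - X^k)^(J-k)` on the unit circle. -/

set_option autoImplicit false

open Polynomial Finset

namespace Pool.Agent.Run7.h888.LW

/-- `|1 - u| ≤ (2 / (1 + r)) |1 - r u|`. -/
lemma one_sub_le (r : ℝ) (hr0 : 0 ≤ r) (u : ℂ) (hu : ‖u‖ = 1) :
    ‖1 - u‖ ≤ 2 / (1 + r) * ‖1 - (r : ℂ) * u‖ := by
  have h1 : 0 < 1 + r := by linarith
  rw [div_mul_eq_mul_div, le_div_iff₀ h1]
  have h2 : u.re ^ 2 + u.im ^ 2 = 1 := by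
    have := Complex.sq_norm u
    rw [hu, Complex.normSq_apply] at this
    nlinarith
  have hc : -1 ≤ u.re := by nlinarith [sq_nonneg u.im, sq_nonneg (u.re - 1)]
  apply le_of_sq_le_sq _ (by positivity)
  rw [mul_pow, mul_pow, Complex.sq_norm, Complex.sq_norm, Complex.normSq_apply, Complex.normSq_apply]
  simp only [Complex.sub_re, Complex.one_re, Complex.sub_im, Complex.one_im, Complex.mul_re, Complex.mul_im,
    Complex.ofReal_re, Complex.ofReal_im, zero_mul, sub_zero, add_zero]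
  have h3 : 0 ≤ (1 - r) ^ 2 * (1 + u.re) := mul_nonneg (sq_nonneg _) (by linarith)
  nlinarith [h2, h3]

/-- the Fejer sum -/
lemma fejer (J : ℕ) (w : ℂ) (hw : ‖w‖ = 1) :
    (J : ℝ) + 2 * ∑ k ∈ range J, ((J : ℝ) - 1 - k) * (w ^ (k + 1)).re = ‖∑ i ∈ range J, w ^ i‖ ^ 2 := by
  induction J with
  | zero => simp
  | succ J ih =>
    have hww : w * (starRingEnd ℂ) w = 1 := by
      rw [Complex.mul_conj, Complex.normSq_eq_norm_sq, hw]
      simp
    have hS : ‖∑ i ∈ range (J + 1), w ^ i‖ ^ 2 = ‖∑ i ∈ range J, w ^ i‖ ^ 2 + 1 +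
        2 * ((starRingEnd ℂ) (∑ i ∈ range J, w ^ i) * w ^ J).re := by
      rw [sum_range_succ, Complex.sq_norm, Complex.normSq_add, Complex.sq_norm, Complex.normSq_eq_norm_sq (w ^ J),
        norm_pow, hw]
      have : ((∑ i ∈ range J, w ^ i) * (starRingEnd ℂ) (w ^ J)).re =
          ((starRingEnd ℂ) (∑ i ∈ range J, w ^ i) * w ^ J).re := by
        rw [← Complex.conj_re, map_mul, Complex.conj_conj]
      rw [this]
      ring
    have hcr : (starRingEnd ℂ) (∑ i ∈ range J, w ^ i) * w ^ J = ∑ k ∈ range J, w ^ (k + 1) := by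
      rw [map_sum, sum_mul, ← sum_range_reflect]
      apply sum_congr rfl
      intro k hk
      rw [mem_range] at hk
      obtain ⟨i, hi⟩ : ∃ i, J = i + (k + 1) := ⟨J - 1 - k, by omega⟩
      have e1 : J - 1 - k = i := by omega
      rw [e1, map_pow]
      nth_rewrite 1 [hi]
      rw [pow_add, ← mul_assoc, ← mul_pow, mul_comm _ w, hww, one_pow, one_mul]
    rw [hS, hcr, ← ih, Complex.re_sum, sum_range_succ]
    have e2 : ∑ k ∈ range J, (((J + 1 : ℕ) : ℝ) - 1 - k) * (w ^ (k + 1)).re =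
        ∑ k ∈ range J, ((J : ℝ) - 1 - k) * (w ^ (k + 1)).re + ∑ k ∈ range J, (w ^ (k + 1)).re := by
      rw [← sum_add_distrib]
      apply sum_congr rfl
      intro k _
      push_cast
      ring
    rw [e2]
    push_cast
    ring

lemma log_norm_hasSum (r : ℝ) (hr0 : 0 ≤ r) (hr1 : r < 1) (u : ℂ) (hu : ‖u‖ = 1) :
    HasSum (fun n : ℕ => -(r ^ n * (u ^ n).re / n)) (Real.log ‖1 - (r : ℂ) * u‖) := by
  have hn : ‖(r : ℂ) * u‖ < 1 := by
    rw [norm_mul, hu, mul_one, Complex.norm_real, Real.norm_eq_abs, abs_of_nonneg hr0]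
    exact hr1
  have h1 := (Complex.hasSum_taylorSeries_neg_log hn).neg
  rw [neg_neg] at h1
  have h2 := Complex.hasSum_re h1
  rw [Complex.log_re] at h2
  have e : (fun n : ℕ => -(r ^ n * (u ^ n).re / n)) = fun n : ℕ => (-(((r : ℂ) * u) ^ n / (n : ℂ))).re := by
    funext n
    rw [Complex.neg_re, mul_pow, ← Complex.ofReal_pow, ← Complex.ofReal_natCast, Complex.div_ofReal_re,
      Complex.re_ofReal_mul]
  rw [e]
  exact h2

lemma log_r_hasSum (r : ℝ) (hr0 : 0 ≤ r) (hr1 : r < 1) :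
    HasSum (fun n : ℕ => r ^ n / n) (-Real.log (1 - r)) := by
  have h1 := log_norm_hasSum r hr0 hr1 1 (by simp)
  have h2 := h1.neg
  have e1 : ‖1 - (r : ℂ) * 1‖ = 1 - r := by
    rw [mul_one, ← Complex.ofReal_one, ← Complex.ofReal_sub, Complex.norm_real, Real.norm_eq_abs,
      abs_of_nonneg (by linarith)]
  rw [e1] at h2
  have e : (fun n : ℕ => r ^ n / n) = fun n : ℕ => -(-(r ^ n * ((1 : ℂ) ^ n).re / n)) := by
    funext n
    simp
  rw [e]
  exact h2

/-- the weighted sum of logarithms -/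
lemma log_sum_le (J : ℕ) (r : ℝ) (hr0 : 0 ≤ r) (hr1 : r < 1) (z : ℂ) (hz : ‖z‖ = 1) :
    ∑ k ∈ range J, ((J : ℝ) - 1 - k) * Real.log ‖1 - (r : ℂ) * z ^ (k + 1)‖ ≤
      (J : ℝ) / 2 * (-Real.log (1 - r)) := by
  have h1 : HasSum (fun n : ℕ => ∑ k ∈ range J, ((J : ℝ) - 1 - k) * (-(r ^ n * ((z ^ (k + 1)) ^ n).re / n)))
      (∑ k ∈ range J, ((J : ℝ) - 1 - k) * Real.log ‖1 - (r : ℂ) * z ^ (k + 1)‖) := by
    apply hasSum_sum
    intro k _
    apply HasSum.mul_left
    apply log_norm_hasSum r hr0 hr1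
    rw [norm_pow, hz, one_pow]
  have h2 : HasSum (fun n : ℕ => (J : ℝ) / 2 * (r ^ n / n)) ((J : ℝ) / 2 * (-Real.log (1 - r))) :=
    (log_r_hasSum r hr0 hr1).mul_left _
  refine hasSum_le ?_ h1 h2
  intro n
  have h3 := fejer J (z ^ n) (by rw [norm_pow, hz, one_pow])
  have h4 : 0 ≤ ‖∑ i ∈ range J, (z ^ n) ^ i‖ ^ 2 := by positivity
  rw [← h3] at h4
  have h5 : ∑ k ∈ range J, ((J : ℝ) - 1 - k) * (-(r ^ n * ((z ^ (k + 1)) ^ n).re / n)) =
      -(r ^ n / n) * ∑ k ∈ range J, ((J : ℝ) - 1 - k) * ((z ^ n) ^ (k + 1)).re := by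
    rw [mul_sum]
    apply sum_congr rfl
    intro k _
    rw [← pow_mul, ← pow_mul, mul_comm n]
    ring
  rw [h5]
  have h6 : 0 ≤ r ^ n / (n : ℝ) := by positivity
  nlinarith

/-- **SUP**. -/
theorem t_SUP : Pool.Agent.Run7.h865.LW.S_SUP := by
  intro J hJ z hz
  have hJ2 : (2 : ℝ) ≤ J := by exact_mod_cast hJ
  have hJ0 : (0 : ℝ) < J := by linarith
  obtain ⟨r, hr⟩ : ∃ r : ℝ, r = 1 - 1 / (J : ℝ) := ⟨_, rfl⟩
  have hJi : 1 / (J : ℝ) ≤ 1 / 2 := one_div_le_one_div_of_le (by norm_num) hJ2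
  have hJi0 : 0 < 1 / (J : ℝ) := by positivity
  have hr0 : 0 ≤ r := by rw [hr]; linarith
  have hr1 : r < 1 := by rw [hr]; linarith
  have hB : aeval z (Pool.Agent.Run7.h865.LW.B J) = ∏ k ∈ range J, (1 - z ^ (k + 1)) ^ (J - 1 - k) := by
    unfold Pool.Agent.Run7.h865.LW.B
    simp
  rw [hB, norm_prod]
  have hpos : ∀ k, 0 < ‖1 - (r : ℂ) * z ^ (k + 1)‖ := by
    intro k
    rw [norm_pos_iff, sub_ne_zero]
    intro h
    have h1 : ‖(r : ℂ) * z ^ (k + 1)‖ = 1 := by rw [← h]; simp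
    rw [norm_mul, norm_pow, hz, one_pow, mul_one, Complex.norm_real, Real.norm_eq_abs, abs_of_nonneg hr0] at h1
    linarith
  have hc1 : 0 < 2 / (1 + r) := by positivity
  calc ∏ k ∈ range J, ‖(1 - z ^ (k + 1)) ^ (J - 1 - k)‖
      ≤ ∏ k ∈ range J, (Real.exp (((J : ℝ) - 1 - k) * Real.log (2 / (1 + r)) +
          ((J : ℝ) - 1 - k) * Real.log ‖1 - (r : ℂ) * z ^ (k + 1)‖)) := by
        apply prod_le_prod (fun _ _ => norm_nonneg _)
        intro k hk
        rw [mem_range] at hk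
        rw [norm_pow]
        have h1 := one_sub_le r hr0 (z ^ (k + 1)) (by rw [norm_pow, hz, one_pow])
        refine (pow_le_pow_left₀ (norm_nonneg _) h1 _).trans (le_of_eq ?_)
        have e1 : ((J : ℝ) - 1 - k) = ((J - 1 - k : ℕ) : ℝ) := by
          rw [Nat.cast_sub (by omega), Nat.cast_sub (by omega)]
          simp
        rw [e1, ← mul_add, ← Real.log_mul hc1.ne' (hpos k).ne', Real.exp_nat_mul, Real.exp_log (mul_pos hc1 (hpos k))]
    _ = Real.exp (∑ k ∈ range J, ((J : ℝ) - 1 - k) * Real.log (2 / (1 + r)) +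
          ∑ k ∈ range J, ((J : ℝ) - 1 - k) * Real.log ‖1 - (r : ℂ) * z ^ (k + 1)‖) := by
        rw [← Real.exp_sum, sum_add_distrib]
    _ ≤ Real.exp ((J : ℝ) / 2 * Real.log J + J) := by
        apply Real.exp_le_exp.mpr
        have h1 := log_sum_le J r hr0 hr1 z hz
        have e1 : -Real.log (1 - r) = Real.log J := by
          have : 1 - r = (J : ℝ)⁻¹ := by rw [hr, one_div]; ring
          rw [this, Real.log_inv, neg_neg]
        rw [e1] at h1
        have e2 : ∑ k ∈ range J, ((J : ℝ) - 1 - k) ≤ (J : ℝ) ^ 2 / 2 := by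
          have h3 : ∀ n : ℕ, ∑ k ∈ range n, ((J : ℝ) - 1 - k) = n * (J - 1) - n * (n - 1) / 2 := by
            intro n
            induction n with
            | zero => simp
            | succ n ih =>
              rw [sum_range_succ, ih]
              push_cast
              ring
          rw [h3]
          nlinarith
        have e3 : Real.log (2 / (1 + r)) ≤ 1 / J := by
          have h4 : 1 + r = 2 - 1 / J := by rw [hr]; ring
          have h5 : 2 / (1 + r) ≤ 1 + 1 / J := by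
            rw [h4, div_le_iff₀ (by linarith)]
            nlinarith
          have h6 := Real.log_le_sub_one_of_pos hc1
          linarith
        have e4 : 0 ≤ Real.log (2 / (1 + r)) := by
          apply Real.log_nonneg
          rw [le_div_iff₀ (by linarith)]
          linarith
        rw [← sum_mul]
        have e5 : (∑ k ∈ range J, ((J : ℝ) - 1 - k)) * Real.log (2 / (1 + r)) ≤ (J : ℝ) ^ 2 / 2 * (1 / J) := by
          refine (mul_le_mul_of_nonneg_right e2 e4).trans ?_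
          apply mul_le_mul_of_nonneg_left e3 (by positivity)
        have e6 : (J : ℝ) ^ 2 / 2 * (1 / J) = J / 2 := by field_simp
        rw [e6] at e5
        linarith

end Pool.Agent.Run7.h888.LW
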